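import Pool.Agent.helper58.CM.WBa

/-! # Quantum cat maps: TW (the concrete Weyl system) -/

set_option linter.unusedSectionVars false

open scoped BigOperators

namespace Pool.Agent.helper86.CM

noncomputable section

theorem TW_apply {g N : ℕ} [NeZero N] (n : Lat g) (ψ : St g N) (x : Fin g → ZMod N) :
    (TT n ψ) x = ee ((qf n : ℝ) / (2 * N)) *
      ZMod.stdAddChar (∑ i, ((n (Sum.inr i) : ℤ) : ZMod N) * x i) *
        ψ (x + fun i => ((n (Sum.inl i) : ℤ) : ZMod N)) := rfl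

theorem TW_std {N : ℕ} [NeZero N] (k : ℤ) : ZMod.stdAddChar (k : ZMod N) = ee ((k : ℝ) / N) := by
  rw [ZMod.stdAddChar_coe]
  unfold ee
  congr 1
  push_cast
  ring

theorem TW_std_norm {N : ℕ} [NeZero N] (x : ZMod N) : ‖ZMod.stdAddChar x‖ = 1 := by
  rw [ZMod.stdAddChar_apply]
  exact Circle.norm_coe _

theorem TW_ee_neg_one : ee (1 / 2) = -1 := by
  unfold ee
  rw [← Complex.exp_pi_mul_I]
  congr 1
  push_cast
  ring

theorem TW_ee_nat (x : ℝ) (k : ℕ) : ee (k * x) = ee x ^ k := by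
  unfold ee
  rw [← Complex.exp_nat_mul]
  congr 1
  push_cast
  ring

theorem TW_ee_half (k : ℤ) : ee ((k : ℝ) / 2) = (-1 : ℂ) ^ k.natAbs := by
  have h1 : ∀ j : ℕ, ee ((j : ℝ) / 2) = (-1 : ℂ) ^ j := by
    intro j
    have : (j : ℝ) / 2 = j * (1 / 2) := by ring
    rw [this, TW_ee_nat, TW_ee_neg_one]
  obtain ⟨j, rfl | rfl⟩ := Int.eq_nat_or_neg k
  · rw [Int.natAbs_natCast, ← h1 j, Int.cast_natCast]
  · rw [Int.natAbs_neg, Int.natAbs_natCast]
    have h2 : ee (((-(j : ℤ) : ℤ) : ℝ) / 2) * ee ((j : ℝ) / 2) = 1 := by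
      rw [← WB_ee_add]
      have : ((-(j : ℤ) : ℤ) : ℝ) / 2 + (j : ℝ) / 2 = 0 := by push_cast; ring
      rw [this, WB_ee_zero]
    rw [h1] at h2
    have h3 : ((-1 : ℂ) ^ j) * ((-1 : ℂ) ^ j) = 1 := by
      rw [← mul_pow]; simp
    calc ee (((-(j : ℤ) : ℤ) : ℝ) / 2) = ee (((-(j : ℤ) : ℤ) : ℝ) / 2) *
          (((-1 : ℂ) ^ j) * ((-1 : ℂ) ^ j)) := by rw [h3, mul_one]
      _ = (ee (((-(j : ℤ) : ℤ) : ℝ) / 2) * ((-1 : ℂ) ^ j)) * ((-1 : ℂ) ^ j) := by ring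
      _ = _ := by rw [h2, one_mul]

theorem TW_qf_add {g : ℕ} (m n : Lat g) :
    qf (m + n) + omega m n = qf m + qf n + 2 * ∑ i, n (Sum.inr i) * m (Sum.inl i) := by
  unfold qf omega
  rw [Finset.mul_sum, ← Finset.sum_add_distrib, ← Finset.sum_add_distrib, ← Finset.sum_add_distrib]
  refine Finset.sum_congr rfl fun i _ => ?_
  simp only [Pi.add_apply]
  ring

theorem TW_qf_nsmul {g : ℕ} (k : ℕ) (n : Lat g) : qf (k • n) = (k : ℤ) ^ 2 * qf n := by
  unfold qf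
  rw [Finset.mul_sum]
  refine Finset.sum_congr rfl fun i _ => ?_
  simp only [Pi.smul_apply, nsmul_eq_mul]
  ring

theorem TW_zero {g N : ℕ} [NeZero N] (v : St g N) : TT (0 : Lat g) v = v := by
  ext x
  rw [TW_apply]
  have h1 : qf (0 : Lat g) = 0 := by simp [qf]
  have h2 : (fun i : Fin g => (((0 : Lat g) (Sum.inl i) : ℤ) : ZMod N)) = 0 := by
    funext i; simp
  rw [h1, h2]
  simp [WB_ee_zero]

theorem TW_mul {g N : ℕ} [NeZero N] (m n : Lat g) (v : St g N) :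
    TT m (TT n v) = ee ((omega m n : ℝ) / (2 * N)) • TT (m + n) v := by
  have hN : (N : ℝ) ≠ 0 := Nat.cast_ne_zero.2 (NeZero.ne N)
  ext x
  rw [TW_apply, TW_apply, PiLp.smul_apply, TW_apply, smul_eq_mul]
  have e1 : (x + fun i => ((m (Sum.inl i) : ℤ) : ZMod N)) + (fun i => ((n (Sum.inl i) : ℤ) : ZMod N)) =
      x + fun i => (((m + n) (Sum.inl i) : ℤ) : ZMod N) := by
    funext i
    simp only [Pi.add_apply, Int.cast_add]
    ring
  have e2 : ZMod.stdAddChar (∑ i, ((n (Sum.inr i) : ℤ) : ZMod N) *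
      (x + fun i => ((m (Sum.inl i) : ℤ) : ZMod N)) i) =
      ee (((∑ i, n (Sum.inr i) * m (Sum.inl i) : ℤ) : ℝ) / N) *
        ZMod.stdAddChar (∑ i, ((n (Sum.inr i) : ℤ) : ZMod N) * x i) := by
    rw [← TW_std (N := N), ← AddChar.map_add_eq_mul]
    congr 1
    push_cast
    rw [← Finset.sum_add_distrib]
    refine Finset.sum_congr rfl fun i _ => ?_
    simp only [Pi.add_apply]
    ring
  have e3 : ZMod.stdAddChar (∑ i, (((m + n) (Sum.inr i) : ℤ) : ZMod N) * x i) =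
      ZMod.stdAddChar (∑ i, ((m (Sum.inr i) : ℤ) : ZMod N) * x i) *
        ZMod.stdAddChar (∑ i, ((n (Sum.inr i) : ℤ) : ZMod N) * x i) := by
    rw [← AddChar.map_add_eq_mul]
    congr 1
    rw [← Finset.sum_add_distrib]
    refine Finset.sum_congr rfl fun i _ => ?_
    simp only [Pi.add_apply, Int.cast_add]
    ring
  rw [e1, e2, e3]
  have e4 : ee ((omega m n : ℝ) / (2 * N)) * ee ((qf (m + n) : ℝ) / (2 * N)) =
      ee ((qf m : ℝ) / (2 * N)) * ee ((qf n : ℝ) / (2 * N)) *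
        ee (((∑ i, n (Sum.inr i) * m (Sum.inl i) : ℤ) : ℝ) / N) := by
    rw [← WB_ee_add, ← WB_ee_add, ← WB_ee_add]
    congr 1
    have h := congrArg (fun z : ℤ => (z : ℝ)) (TW_qf_add m n)
    simp only [Int.cast_add, Int.cast_mul, Int.cast_ofNat] at h
    field_simp
    linarith
  calc _ = (ee ((qf m : ℝ) / (2 * N)) * ee ((qf n : ℝ) / (2 * N)) *
        ee (((∑ i, n (Sum.inr i) * m (Sum.inl i) : ℤ) : ℝ) / N)) *
        (ZMod.stdAddChar (∑ i, ((m (Sum.inr i) : ℤ) : ZMod N) * x i) *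
        ZMod.stdAddChar (∑ i, ((n (Sum.inr i) : ℤ) : ZMod N) * x i)) *
        v (x + fun i => (((m + n) (Sum.inl i) : ℤ) : ZMod N)) := by ring
    _ = _ := by rw [← e4]; ring

theorem TW_norm {g N : ℕ} [NeZero N] (n : Lat g) (v : St g N) : ‖TT n v‖ = ‖v‖ := by
  rw [EuclideanSpace.norm_eq, EuclideanSpace.norm_eq]
  congr 1
  have h1 : ∀ x, ‖(TT n v) x‖ ^ 2 = ‖v (x + fun i => ((n (Sum.inl i) : ℤ) : ZMod N))‖ ^ 2 := by
    intro x
    rw [TW_apply, norm_mul, norm_mul, WB_ee_norm, TW_std_norm, one_mul, one_mul]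
  simp_rw [h1]
  exact Equiv.sum_comp (Equiv.addRight (fun i => ((n (Sum.inl i) : ℤ) : ZMod N)))
    (fun x => ‖v x‖ ^ 2)

/-- multiples of `N` act by signs -/
theorem TW_N (g N : ℕ) [NeZero N] (z : Lat g) (v : St g N) :
    TT (N • z) v = ((-1 : ℂ) ^ (N * (qf z).natAbs)) • v := by
  have hN : (N : ℝ) ≠ 0 := Nat.cast_ne_zero.2 (NeZero.ne N)
  ext x
  rw [TW_apply, PiLp.smul_apply, smul_eq_mul]
  have e1 : (x + fun i => (((N • z) (Sum.inl i) : ℤ) : ZMod N)) = x := by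
    funext i
    simp
  have e2 : (∑ i, (((N • z) (Sum.inr i) : ℤ) : ZMod N) * x i) = 0 := by
    refine Finset.sum_eq_zero fun i _ => ?_
    simp
  rw [e1, e2, AddChar.map_zero_eq_one, mul_one, TW_qf_nsmul]
  congr 1
  have h1 : (((N : ℤ) ^ 2 * qf z : ℤ) : ℝ) / (2 * N) = ((((N : ℤ) * qf z : ℤ)) : ℝ) / 2 := by
    push_cast
    field_simp
  rw [h1, TW_ee_half, Int.natAbs_mul, Int.natAbs_natCast]

theorem TW (g N : ℕ) [NeZero N] : ∃ W : Weyl (omB g) (St g N) N, ∀ n, W.T n = TT n := by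
  refine ⟨⟨fun n => TT n, TW_zero, fun m n v => TW_mul m n v, TW_norm, ?_, ?_⟩, fun n => rfl⟩
  · intro n v
    have h1 : (2 * N) • n = N • (2 • n) := by rw [smul_smul, mul_comm]
    rw [h1, TW_N, TW_qf_nsmul, Int.natAbs_mul, pow_mul]
    have h2 : ((-1 : ℂ) ^ N) ^ (((((2 : ℕ) : ℤ) ^ 2).natAbs) * (qf n).natAbs) = 1 := by
      rw [← pow_mul]
      have h3 : N * (((((2 : ℕ) : ℤ) ^ 2).natAbs) * (qf n).natAbs) = 2 * (2 * (N * (qf n).natAbs)) := by
        have : (((2 : ℕ) : ℤ) ^ 2).natAbs = 4 := rfl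
        rw [this]; ring
      rw [h3, pow_mul]
      simp
    rw [h2, one_smul]
  · intro z
    show omega z z = 0
    unfold omega
    refine Finset.sum_eq_zero fun i _ => ?_
    ring

theorem TW_omega_J {g : ℕ} (m n : Lat g) :
    m ⬝ᵥ ((Matrix.J (Fin g) ℤ).mulVec n) = - omega m n := by
  unfold omega
  rw [dotProduct, Fintype.sum_sum_type, ← Finset.sum_neg_distrib, ← Finset.sum_add_distrib]
  refine Finset.sum_congr rfl fun i _ => ?_
  have h1 : (Matrix.J (Fin g) ℤ).mulVec n (Sum.inl i) = - n (Sum.inr i) := by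
    rw [Matrix.J, Matrix.mulVec, dotProduct, Fintype.sum_sum_type]
    simp [Matrix.one_apply]
  have h2 : (Matrix.J (Fin g) ℤ).mulVec n (Sum.inr i) = n (Sum.inl i) := by
    rw [Matrix.J, Matrix.mulVec, dotProduct, Fintype.sum_sum_type]
    simp [Matrix.one_apply]
  rw [h1, h2]
  ring

/-- the linear automorphism of the lattice given by a symplectic matrix -/
theorem AE (g : ℕ) (A : Matrix (Fin g ⊕ Fin g) (Fin g ⊕ Fin g) ℤ)
    (hA : A ∈ Matrix.symplecticGroup (Fin g) ℤ) :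
    ∃ Ae : Lat g ≃ₗ[ℤ] Lat g, (∀ (t : ℕ) n, (Ae ^ t) n = (A ^ t).mulVec n) ∧
      (∀ n, Ae n = A.mulVec n) ∧ ∀ m n, omega (Ae m) (Ae n) = omega m n := by
  have hdet : IsUnit A.det := SymplecticGroup.symplectic_det hA
  have h1 : A * A⁻¹ = 1 := Matrix.mul_nonsing_inv A hdet
  have h2 : A⁻¹ * A = 1 := Matrix.nonsing_inv_mul A hdet
  have hval : ∀ n, (Matrix.toLin'OfInv h2 h1 : Lat g ≃ₗ[ℤ] Lat g) n = A.mulVec n := fun n => rfl
  refine ⟨Matrix.toLin'OfInv h2 h1, ?_, hval, ?_⟩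
  · intro t
    induction t with
    | zero => intro n; simp
    | succ t ih =>
      intro n
      rw [pow_succ, pow_succ, LinearEquiv.mul_apply, ih, hval, Matrix.mulVec_mulVec]
  · intro m n
    rw [hval, hval]
    have h3 : A.transpose * Matrix.J (Fin g) ℤ * A = Matrix.J (Fin g) ℤ := SymplecticGroup.mem_iff'.1 hA
    have h4 : (A.mulVec m) ⬝ᵥ ((Matrix.J (Fin g) ℤ).mulVec (A.mulVec n)) =
        m ⬝ᵥ ((Matrix.J (Fin g) ℤ).mulVec n) := by
      conv_rhs => rw [← h3]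
      rw [← Matrix.mulVec_mulVec, ← Matrix.mulVec_mulVec, Matrix.dotProduct_mulVec m A.transpose,
        Matrix.vecMul_transpose]
    rw [TW_omega_J, TW_omega_J] at h4
    linarith

end

end Pool.Agent.helper86.CM
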