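import Pool.Agent.helper58.CM.TW

/-! # Quantum cat maps: EX (existence of quantizations) -/

set_option linter.unusedSectionVars false

open scoped BigOperators

namespace Pool.Agent.helper86.CM

noncomputable section

variable {g N : ℕ} [NeZero N]

/-- position part -/
def EXi1 (g : ℕ) : (Fin g → ℤ) →+ Lat g where
  toFun a := Sum.elim a 0
  map_zero' := by funext i; rcases i with i | i <;> rfl
  map_add' a b := by funext i; rcases i with i | i <;> simp

/-- momentum part -/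
def EXi2 (g : ℕ) : (Fin g → ℤ) →+ Lat g where
  toFun a := Sum.elim 0 a
  map_zero' := by funext i; rcases i with i | i <;> rfl
  map_add' a b := by funext i; rcases i with i | i <;> simp

theorem EX_om11 (a b : Fin g → ℤ) : omega (EXi1 g a) (EXi1 g b) = 0 := by
  simp [omega, EXi1]

theorem EX_om22 (a b : Fin g → ℤ) : omega (EXi2 g a) (EXi2 g b) = 0 := by
  simp [omega, EXi2]

theorem EX_om12 (a b : Fin g → ℤ) : omega (EXi1 g a) (EXi2 g b) = ∑ i, a i * b i := by
  simp [omega, EXi2, EXi1]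

theorem EX_om21 (a b : Fin g → ℤ) : omega (EXi2 g a) (EXi1 g b) = - ∑ i, a i * b i := by
  simp [omega, EXi2, EXi1]

theorem EX_qf1 (a : Fin g → ℤ) : qf (EXi1 g a) = 0 := by simp [qf, EXi1]

theorem EX_qf2 (a : Fin g → ℤ) : qf (EXi2 g a) = 0 := by simp [qf, EXi2]

/-- lift of a residue vector -/
def EXlft (x : Fin g → ZMod N) : Fin g → ℤ := fun i => ((x i).val : ℤ)

/-- reduction -/
def EXred (N : ℕ) (a : Fin g → ℤ) : Fin g → ZMod N := fun i => ((a i : ℤ) : ZMod N)

theorem EX_red_lft (x : Fin g → ZMod N) : EXred N (EXlft x) = x := by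
  funext i
  simp [EXred, EXlft]

theorem EX_red_add (a b : Fin g → ℤ) : EXred N (a + b) = EXred N a + EXred N b := by
  funext i
  simp [EXred]

theorem EX_red_neg (a : Fin g → ℤ) : EXred N (-a) = - EXred N a := by
  funext i
  simp [EXred]

section gen

variable {H : Type} [NormedAddCommGroup H] [InnerProductSpace ℂ H]
  (W : Weyl (omB g) H N) (hW : ∀ (z : Lat g) (v : H), qf z = 0 → W.T (N • z) v = v)

include hW in
theorem EX_congr (f : (Fin g → ℤ) →+ Lat g) (hf : ∀ a b, omega (f a) (f b) = 0)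
    (hq : ∀ a, qf (f a) = 0) (a b : Fin g → ℤ) (h : EXred N a = EXred N b) (v : H) :
    W.T (f a) v = W.T (f b) v := by
  have h1 : ∀ i, ∃ c : ℤ, a i = b i + N * c := by
    intro i
    have h2 : ((b i : ℤ) : ZMod N) = ((a i : ℤ) : ZMod N) := (congrFun h i).symm
    rw [ZMod.intCast_eq_intCast_iff_dvd_sub] at h2
    obtain ⟨c, hc⟩ := h2
    exact ⟨c, by linarith⟩
  choose c hc using h1
  have h3 : a = b + N • c := by
    funext i
    rw [hc i]
    simp
  rw [h3, map_add, map_nsmul, WB_add W _ _ ?_, hW _ _ (hq c)]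
  show omega (f b) (N • f c) = 0
  have h4 : (omB g) (f b) (N • f c) = N • (omB g) (f b) (f c) := map_nsmul _ _ _
  have h5 : (omB g) (f b) (f c) = 0 := hf b c
  rw [h5, smul_zero] at h4
  exact h4

/-- the partial Fourier projection -/
def EXP (c : Fin g → ZMod N) (v : H) : H :=
  ∑ b : Fin g → ZMod N, (ZMod.stdAddChar (-∑ i, c i * b i) : ℂ) • W.T (EXi2 g (EXlft b)) v

include hW in
theorem EXP_eigen (c : Fin g → ZMod N) (v : H) (b' : Fin g → ℤ) :
    W.T (EXi2 g b') (EXP W c v) =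
      (ZMod.stdAddChar (∑ i, c i * EXred N b' i) : ℂ) • EXP W c v := by
  unfold EXP
  rw [map_sum, Finset.smul_sum]
  have h1 : ∀ b : Fin g → ZMod N, W.T (EXi2 g b') ((ZMod.stdAddChar (-∑ i, c i * b i) : ℂ) •
      W.T (EXi2 g (EXlft b)) v) = (ZMod.stdAddChar (-∑ i, c i * b i) : ℂ) •
        W.T (EXi2 g (EXlft (b + EXred N b'))) v := by
    intro b
    rw [map_smul, ← WB_add W _ _ (EX_om22 b' (EXlft b)), ← map_add]
    congr 1
    refine EX_congr W hW (EXi2 g) EX_om22 EX_qf2 _ _ ?_ v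
    rw [EX_red_add, EX_red_lft, EX_red_lft, add_comm]
  simp_rw [h1]
  rw [← Equiv.sum_comp (Equiv.addRight (EXred N b')) (fun b => (ZMod.stdAddChar
    (∑ i, c i * EXred N b' i) : ℂ) • (ZMod.stdAddChar (-∑ i, c i * b i) : ℂ) •
      W.T (EXi2 g (EXlft b)) v)]
  refine Finset.sum_congr rfl fun b _ => ?_
  simp only [Equiv.coe_addRight]
  rw [smul_smul, ← AddChar.map_add_eq_mul]
  congr 2
  simp only [Pi.add_apply, mul_add, Finset.sum_add_distrib]
  ring

/-- character of the sum over `c` -/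
def EXchar (b : Fin g → ZMod N) : AddChar (Fin g → ZMod N) ℂ where
  toFun c := ZMod.stdAddChar (-∑ i, c i * b i)
  map_zero_eq_one' := by simp
  map_add_eq_mul' c c' := by
    rw [← AddChar.map_add_eq_mul]
    congr 1
    simp only [Pi.add_apply, add_mul, Finset.sum_add_distrib]
    ring

theorem EX_sum_char (b : Fin g → ZMod N) (hb : b ≠ 0) :
    ∑ c : Fin g → ZMod N, (ZMod.stdAddChar (-∑ i, c i * b i) : ℂ) = 0 := by
  classical
  have h1 : ∑ c, EXchar b c = 0 := by
    rw [AddChar.sum_eq_zero_iff_ne_zero]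
    intro h0
    obtain ⟨i, hi⟩ := Function.ne_iff.1 hb
    have h2 : EXchar b (Pi.single i 1) = 1 := by
      rw [h0]; rfl
    have h3 : (ZMod.stdAddChar (-∑ j, (Pi.single i (1 : ZMod N) : Fin g → ZMod N) j * b j) : ℂ) = 1 := h2
    rw [Finset.sum_eq_single i (fun j _ hj => by rw [Pi.single_eq_of_ne hj, zero_mul])
      (fun h => absurd (Finset.mem_univ i) h), Pi.single_eq_same, one_mul] at h3
    have h4 : -b i = 0 := by
      apply ZMod.injective_stdAddChar (N := N)
      rw [h3, AddChar.map_zero_eq_one]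
    exact hi (neg_eq_zero.1 h4)
  exact h1

theorem EX_sum_P (v : H) : ∑ c, EXP W c v = (Fintype.card (Fin g → ZMod N) : ℂ) • v := by
  classical
  unfold EXP
  rw [Finset.sum_comm]
  simp_rw [← Finset.sum_smul]
  rw [Finset.sum_eq_single 0]
  · have h1 : EXi2 g (EXlft (0 : Fin g → ZMod N)) = 0 := by
      have : EXlft (0 : Fin g → ZMod N) = 0 := by
        funext i; simp [EXlft]
      rw [this, map_zero]
    rw [h1, W.zero]
    congr 1
    simp
  · intro b _ hb
    rw [EX_sum_char b hb, zero_smul]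
  · intro h; exact absurd (Finset.mem_univ _) h

include hW in
/-- a unit vector fixed by the momentum operators -/
theorem EX_fixed [Nontrivial H] : ∃ w : H, ‖w‖ = 1 ∧ ∀ b : Fin g → ℤ, W.T (EXi2 g b) w = w := by
  obtain ⟨v, hv⟩ := exists_ne (0 : H)
  obtain ⟨c, hc⟩ : ∃ c, EXP W c v ≠ 0 := by
    by_contra hcon
    push Not at hcon
    have h1 := EX_sum_P W v
    rw [Finset.sum_eq_zero fun c _ => hcon c] at h1
    have h2 : (Fintype.card (Fin g → ZMod N) : ℂ) ≠ 0 := by
      exact_mod_cast Fintype.card_ne_zero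
    rcases smul_eq_zero.1 h1.symm with h3 | h3
    · exact h2 h3
    · exact hv h3
  set u := W.T (EXi1 g (EXlft c)) (EXP W c v) with hu
  have hu0 : u ≠ 0 := by
    intro h0
    have := W.norm (EXi1 g (EXlft c)) (EXP W c v)
    rw [← hu, h0, norm_zero] at this
    exact hc (norm_eq_zero.1 this.symm)
  have hN : 1 ≤ N := Nat.pos_of_ne_zero (NeZero.ne N)
  have hfix : ∀ b : Fin g → ℤ, W.T (EXi2 g b) u = u := by
    intro b
    rw [hu, WB_comm W hN, EXP_eigen W hW, map_smul, smul_smul]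
    have h1 : ee ((((omB g) (EXi2 g b) (EXi1 g (EXlft c)) : ℤ) : ℝ) / N) *
        (ZMod.stdAddChar (∑ i, c i * EXred N b i) : ℂ) = 1 := by
      have h2 : (omB g) (EXi2 g b) (EXi1 g (EXlft c)) = - ∑ i, b i * EXlft c i := EX_om21 _ _
      rw [h2, ← TW_std (N := N), ← AddChar.map_add_eq_mul]
      have h3 : ((-∑ i, b i * EXlft c i : ℤ) : ZMod N) + ∑ i, c i * EXred N b i = 0 := by
        push_cast
        rw [← Finset.sum_neg_distrib, ← Finset.sum_add_distrib]
        refine Finset.sum_eq_zero fun i _ => ?_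
        have h4 : ((EXlft c i : ℤ) : ZMod N) = c i := congrFun (EX_red_lft c) i
        rw [h4]
        simp only [EXred]
        ring
      rw [h3, AddChar.map_zero_eq_one]
    rw [h1, one_smul]
  refine ⟨((‖u‖⁻¹ : ℝ) : ℂ) • u, ?_, fun b => by rw [map_smul, hfix]⟩
  rw [norm_smul, Complex.norm_real, norm_inv, norm_norm, inv_mul_cancel₀ (norm_ne_zero_iff.2 hu0)]

/-- the shifted vectors -/
def EXF (w : H) (x : Fin g → ZMod N) : H := W.T (EXi1 g (-EXlft x)) w

theorem EXF_norm (w : H) (hw : ‖w‖ = 1) (x : Fin g → ZMod N) : ‖EXF W w x‖ = 1 := by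
  unfold EXF
  rw [W.norm, hw]

theorem EXF_eigen (w : H) (hw : ∀ b : Fin g → ℤ, W.T (EXi2 g b) w = w) (x : Fin g → ZMod N)
    (b : Fin g → ℤ) : W.T (EXi2 g b) (EXF W w x) =
      (ZMod.stdAddChar (∑ i, EXred N b i * x i) : ℂ) • EXF W w x := by
  have hN : 1 ≤ N := Nat.pos_of_ne_zero (NeZero.ne N)
  unfold EXF
  rw [WB_comm W hN, hw]
  congr 1
  have h2 : (omB g) (EXi2 g b) (EXi1 g (-EXlft x)) = - ∑ i, b i * (-EXlft x) i := EX_om21 _ _
  rw [h2, ← TW_std (N := N)]
  congr 1
  push_cast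
  rw [← Finset.sum_neg_distrib]
  refine Finset.sum_congr rfl fun i _ => ?_
  have h4 : ((EXlft x i : ℤ) : ZMod N) = x i := congrFun (EX_red_lft x) i
  simp only [Pi.neg_apply, EXred]
  push_cast
  rw [h4]
  ring

theorem EXF_orth (w : H) (hw : ∀ b : Fin g → ℤ, W.T (EXi2 g b) w = w) (x y : Fin g → ZMod N)
    (hxy : x ≠ y) : inner ℂ (EXF W w x) (EXF W w y) = 0 := by
  classical
  obtain ⟨i, hi⟩ := Function.ne_iff.1 hxy
  have key : ∀ z : Fin g → ZMod N, W.T (EXi2 g (Pi.single i 1)) (EXF W w z) =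
      (ZMod.stdAddChar (z i) : ℂ) • EXF W w z := by
    intro z
    rw [EXF_eigen W w hw]
    congr 2
    rw [Finset.sum_eq_single i]
    · simp [EXred]
    · intro j _ hj
      simp [EXred, hj]
    · intro h; exact absurd (Finset.mem_univ _) h
  have h1 : inner ℂ (EXF W w x) (EXF W w y) = (starRingEnd ℂ) (ZMod.stdAddChar (x i)) *
      ZMod.stdAddChar (y i) * inner ℂ (EXF W w x) (EXF W w y) := by
    calc inner ℂ (EXF W w x) (EXF W w y) = inner ℂ (W.T (EXi2 g (Pi.single i 1)) (EXF W w x))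
          (W.T (EXi2 g (Pi.single i 1)) (EXF W w y)) := (WB_inner W _ _ _).symm
      _ = _ := by rw [key x, key y, inner_smul_left, inner_smul_right]; ring
  set s : ℂ := ZMod.stdAddChar (x i) with hs
  set t : ℂ := ZMod.stdAddChar (y i) with ht
  by_contra hne
  have h2 : (starRingEnd ℂ) s * t = 1 := by
    have h3 : ((starRingEnd ℂ) s * t - 1) * inner ℂ (EXF W w x) (EXF W w y) = 0 := by
      rw [sub_mul, one_mul, ← h1, sub_self]
    rcases mul_eq_zero.1 h3 with h4 | h4
    · exact sub_eq_zero.1 h4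
    · exact absurd h4 hne
  have hss : s * (starRingEnd ℂ) s = 1 := by
    rw [Complex.mul_conj, Complex.normSq_eq_norm_sq, hs, TW_std_norm]
    simp
  have h5 : t = s := by
    calc t = (s * (starRingEnd ℂ) s) * t := by rw [hss, one_mul]
      _ = s * ((starRingEnd ℂ) s * t) := by ring
      _ = s := by rw [h2, mul_one]
  exact hi (ZMod.injective_stdAddChar (N := N) h5.symm)

include hW in
/-- action of the Weyl operators on the shifted vectors -/
theorem EXF_act (w : H) (hw : ∀ b : Fin g → ℤ, W.T (EXi2 g b) w = w) (x : Fin g → ZMod N)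
    (n : Lat g) : W.T n (EXF W w x) = (ee ((qf n : ℝ) / (2 * N)) *
      ZMod.stdAddChar (∑ i, ((n (Sum.inr i) : ℤ) : ZMod N) *
        (x i - ((n (Sum.inl i) : ℤ) : ZMod N)))) •
      EXF W w (fun i => x i - ((n (Sum.inl i) : ℤ) : ZMod N)) := by
  have hN : (N : ℝ) ≠ 0 := Nat.cast_ne_zero.2 (NeZero.ne N)
  set n1 : Fin g → ℤ := fun i => n (Sum.inl i) with hn1
  set n2 : Fin g → ℤ := fun i => n (Sum.inr i) with hn2
  -- decomposition
  have hdec : n + EXi1 g (-EXlft x) = EXi1 g (n1 - EXlft x) + EXi2 g n2 := by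
    funext i
    rcases i with i | i
    · simp [EXi1, EXi2, hn1]; ring
    · simp [EXi1, EXi2, hn2]
  have h1 : W.T n (EXF W w x) = ee ((omega n (EXi1 g (-EXlft x)) : ℝ) / (2 * N)) •
      W.T (n + EXi1 g (-EXlft x)) w := W.mul _ _ _
  have h2 : W.T (EXi1 g (n1 - EXlft x)) w = ee ((omega (EXi1 g (n1 - EXlft x)) (EXi2 g n2) : ℝ) / (2 * N)) •
      W.T (n + EXi1 g (-EXlft x)) w := by
    have := W.mul (EXi1 g (n1 - EXlft x)) (EXi2 g n2) w
    rw [hw] at this
    rw [hdec]
    exact this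
  have h3 : EXF W w (fun i => x i - ((n (Sum.inl i) : ℤ) : ZMod N)) =
      W.T (EXi1 g (n1 - EXlft x)) w := by
    unfold EXF
    refine EX_congr W hW (EXi1 g) EX_om11 EX_qf1 _ _ ?_ w
    rw [EX_red_neg, EX_red_lft, sub_eq_add_neg, EX_red_add, EX_red_neg, EX_red_lft]
    funext i
    simp only [Pi.neg_apply, Pi.add_apply, EXred, hn1]
    ring
  rw [h3, h2, h1, smul_smul]
  congr 1
  have h4 : (ZMod.stdAddChar (∑ i, ((n (Sum.inr i) : ℤ) : ZMod N) *
        (x i - ((n (Sum.inl i) : ℤ) : ZMod N))) : ℂ) =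
      ee (((∑ i, n2 i * (EXlft x i - n1 i) : ℤ) : ℝ) / N) := by
    rw [← TW_std (N := N)]
    congr 1
    push_cast
    refine Finset.sum_congr rfl fun i _ => ?_
    have h5 : ((EXlft x i : ℤ) : ZMod N) = x i := congrFun (EX_red_lft x) i
    rw [h5]
  rw [h4, ← WB_ee_add, ← WB_ee_add]
  congr 1
  have h6 : omega n (EXi1 g (-EXlft x)) = qf n + 2 * (∑ i, n2 i * (EXlft x i - n1 i)) +
      omega (EXi1 g (n1 - EXlft x)) (EXi2 g n2) := by
    rw [EX_om12]
    unfold omega qf
    rw [Finset.mul_sum, ← Finset.sum_add_distrib, ← Finset.sum_add_distrib]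
    refine Finset.sum_congr rfl fun i _ => ?_
    simp only [EXi1, AddMonoidHom.coe_mk, ZeroHom.coe_mk, Sum.elim_inl, Sum.elim_inr,
      Pi.zero_apply, Pi.neg_apply, Pi.sub_apply, hn1, hn2]
    ring
  have h7 := congrArg (fun z : ℤ => (z : ℝ)) h6
  simp only [Int.cast_add, Int.cast_mul, Int.cast_ofNat] at h7
  rw [h7]
  field_simp

end gen

theorem EX_TT_single [DecidableEq (Fin g → ZMod N)] (n : Lat g) (x : Fin g → ZMod N) :
    TT n (EuclideanSpace.single x (1 : ℂ)) = (ee ((qf n : ℝ) / (2 * N)) *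
      ZMod.stdAddChar (∑ i, ((n (Sum.inr i) : ℤ) : ZMod N) *
        (x i - ((n (Sum.inl i) : ℤ) : ZMod N)))) •
      (EuclideanSpace.single (fun i => x i - ((n (Sum.inl i) : ℤ) : ZMod N)) (1 : ℂ) : St g N) := by
  ext y
  rw [TW_apply, PiLp.smul_apply, smul_eq_mul, PiLp.single_apply, PiLp.single_apply]
  have hiff : y + (fun i => ((n (Sum.inl i) : ℤ) : ZMod N)) = x ↔
      y = fun i => x i - ((n (Sum.inl i) : ℤ) : ZMod N) := by
    constructor
    · rintro rfl
      funext i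
      simp
    · rintro rfl
      funext i
      simp
  by_cases h : y = fun i => x i - ((n (Sum.inl i) : ℤ) : ZMod N)
  · rw [if_pos (hiff.2 h), if_pos h, mul_one, mul_one, h]
  · rw [if_neg (fun h' => h (hiff.1 h')), if_neg h, mul_zero, mul_zero]

theorem EX_gen (W : Weyl (omB g) (St g N) N)
    (hW : ∀ (z : Lat g) (v : St g N), qf z = 0 → W.T (N • z) v = v) :
    ∃ V : St g N ≃ₗᵢ[ℂ] St g N, ∀ (n : Lat g) v, V (TT n v) = W.T n (V v) := by
  classical
  have hnt : Nontrivial (St g N) := by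
    refine ⟨⟨EuclideanSpace.single 0 (1 : ℂ), 0, ?_⟩⟩
    intro h
    have := congrArg norm h
    simp at this
  obtain ⟨w, hw1, hw⟩ := EX_fixed W hW
  have hon : Orthonormal ℂ (EXF W w) :=
    ⟨EXF_norm W w hw1, fun x y hxy => EXF_orth W w hw x y hxy⟩
  have hcard : Fintype.card (Fin g → ZMod N) = Module.finrank ℂ (St g N) := by simp
  set bs := basisOfOrthonormalOfCardEqFinrank hon hcard with hbs
  have hbs' : (bs : (Fin g → ZMod N) → St g N) = EXF W w :=
    coe_basisOfOrthonormalOfCardEqFinrank hon hcard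
  set ob : OrthonormalBasis (Fin g → ZMod N) ℂ (St g N) := OrthonormalBasis.mk hon (by
    rw [← hbs', bs.span_eq]) with hob
  have hob' : (ob : (Fin g → ZMod N) → St g N) = EXF W w := OrthonormalBasis.coe_mk _ _
  refine ⟨ob.repr.symm, ?_⟩
  intro n
  have hsingle : ∀ x, ob.repr.symm (EuclideanSpace.single x (1 : ℂ)) = EXF W w x := by
    intro x
    rw [ob.repr_symm_single, hob']
  have hlin : (ob.repr.symm.toLinearEquiv : St g N →ₗ[ℂ] St g N) ∘ₗ (TT n) =
      (W.T n) ∘ₗ (ob.repr.symm.toLinearEquiv : St g N →ₗ[ℂ] St g N) := by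
    refine (EuclideanSpace.basisFun (Fin g → ZMod N) ℂ).toBasis.ext fun x => ?_
    rw [OrthonormalBasis.coe_toBasis, EuclideanSpace.basisFun_apply]
    show ob.repr.symm (TT n (EuclideanSpace.single x (1 : ℂ))) =
      W.T n (ob.repr.symm (EuclideanSpace.single x (1 : ℂ)))
    rw [EX_TT_single, map_smul, hsingle, hsingle, EXF_act W hW w hw]
  intro v
  exact congrArg (fun f : St g N →ₗ[ℂ] St g N => f v) hlin

theorem EX (g N : ℕ) [NeZero N] (A : Matrix (Fin g ⊕ Fin g) (Fin g ⊕ Fin g) ℤ)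
    (hA : A ∈ Matrix.symplecticGroup (Fin g) ℤ)
    (hq : ∀ n : Lat g, (2 : ℤ) ∣ qf (A.mulVec n) - qf n) :
    ∃ U : St g N ≃ₗᵢ[ℂ] St g N, IsQuant A U := by
  obtain ⟨Ae, -, hAe, hom⟩ := AE g A hA
  obtain ⟨W, hW⟩ := TW g N
  let W' : Weyl (omB g) (St g N) N :=
    { T := fun n => TT (A.mulVec n)
      zero := fun v => by
        rw [Matrix.mulVec_zero]; exact TW_zero v
      mul := fun m n v => by
        rw [TW_mul, ← hAe, ← hAe, hom, ← map_add, hAe]
        rfl
      norm := fun n v => TW_norm _ v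
      per := fun n v => by
        have h1 : A.mulVec ((2 * N) • n) = (2 * N) • A.mulVec n := by
          rw [← hAe, ← hAe, map_nsmul]
        rw [h1, ← hW]
        exact W.per _ v
      alt := W.alt }
  have hW' : ∀ (z : Lat g) (v : St g N), qf z = 0 → W'.T (N • z) v = v := by
    intro z v hz
    show TT (A.mulVec (N • z)) v = v
    have h1 : A.mulVec (N • z) = N • A.mulVec z := by
      rw [← hAe, ← hAe, map_nsmul]
    rw [h1, TW_N]
    have h2 := hq z
    rw [hz, sub_zero] at h2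
    obtain ⟨c, hc⟩ := h2
    rw [hc, Int.natAbs_mul, mul_left_comm, pow_mul]
    simp
  obtain ⟨V, hV⟩ := EX_gen W' hW'
  refine ⟨V.symm, fun n ψ => ?_⟩
  have h1 := hV n (V.symm ψ)
  rw [LinearIsometryEquiv.apply_symm_apply] at h1
  have h2 := congrArg V.symm h1
  rw [LinearIsometryEquiv.symm_apply_apply] at h2
  exact h2

end

end Pool.Agent.helper86.CM
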