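import Pool.Agent.helper58.CM.WBa

/-! # Quantum cat maps: AO (almost orthogonality) -/

set_option linter.unusedSectionVars false

open scoped BigOperators

namespace Pool.Agent.helper86.CM

noncomputable section

variable {L : Type} [AddCommGroup L] [Module.Free ℤ L] [Module.Finite ℤ L]

section WB

variable {om : L →ₗ[ℤ] L →ₗ[ℤ] ℤ} {H : Type} [NormedAddCommGroup H] [InnerProductSpace ℂ H]
  {N : ℕ}

/-- almost orthogonality -/
theorem AO (W : Weyl om H N) (hN : 1 ≤ N) (a b : L) (S : ℕ) (hab : om a b ≠ 0)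
    (hS : (S : ℤ) * |om a b| ≤ N) (u v : H) (hu : W.T a u = u) (hv : W.T b v = v) :
    (S : ℝ) * ‖(inner ℂ u v : ℂ)‖ ^ 2 ≤ ‖u‖ ^ 2 * ‖v‖ ^ 2 := by
  by_cases hu0 : u = 0
  · rw [hu0]; simp
  have hupos : 0 < ‖u‖ := norm_pos_iff.2 hu0
  have hN' : (N : ℝ) ≠ 0 := by
    have : 0 < N := hN
    exact_mod_cast this.ne'
  set U : ℕ → H := fun j => (W.T b ^ j) u with hU
  have hUs : ∀ j, U (j + 1) = W.T b (U j) := by
    intro j
    show (W.T b ^ (j + 1)) u = W.T b ((W.T b ^ j) u)
    rw [pow_succ', Module.End.mul_apply]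
  have hU0 : U 0 = u := rfl
  have hUn : ∀ j, ‖U j‖ = ‖u‖ := by
    intro j
    induction j with
    | zero => rw [hU0]
    | succ j ih => rw [hUs, W.norm, ih]
  have hUv : ∀ j, inner ℂ (U j) v = inner ℂ u v := by
    intro j
    induction j with
    | zero => rw [hU0]
    | succ j ih =>
      rw [hUs]
      calc inner ℂ (W.T b (U j)) v = inner ℂ (W.T b (U j)) (W.T b v) := by rw [hv]
        _ = inner ℂ (U j) v := WB_inner W b _ _
        _ = _ := ih
  have hTa : ∀ j : ℕ, W.T a (U j) = ee ((j : ℝ) * ((om a b : ℝ) / N)) • U j := by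
    intro j
    induction j with
    | zero => rw [hU0, hu]; simp [WB_ee_zero]
    | succ j ih =>
      rw [hUs, WB_comm W hN, ih, map_smul, smul_smul, ← WB_ee_add]
      congr 2
      push_cast
      ring
  have horth : ∀ i j : ℕ, i < S → j < S → i ≠ j → inner ℂ (U i) (U j) = 0 := by
    intro i j hi hj hij
    have h1 : inner ℂ (U i) (U j) = (starRingEnd ℂ) (ee ((i : ℝ) * ((om a b : ℝ) / N))) *
        ee ((j : ℝ) * ((om a b : ℝ) / N)) * inner ℂ (U i) (U j) := by
      calc inner ℂ (U i) (U j) = inner ℂ (W.T a (U i)) (W.T a (U j)) := (WB_inner W a _ _).symm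
        _ = _ := by rw [hTa i, hTa j, inner_smul_left, inner_smul_right]; ring
    set x := ee ((i : ℝ) * ((om a b : ℝ) / N)) with hx
    set y := ee ((j : ℝ) * ((om a b : ℝ) / N)) with hy
    by_contra hne
    have h2 : (starRingEnd ℂ) x * y = 1 := by
      have h3 : ((starRingEnd ℂ) x * y - 1) * inner ℂ (U i) (U j) = 0 := by
        rw [sub_mul, one_mul, ← h1, sub_self]
      rcases mul_eq_zero.1 h3 with h4 | h4
      · exact sub_eq_zero.1 h4
      · exact absurd h4 hne
    have hxx : x * (starRingEnd ℂ) x = 1 := by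
      rw [Complex.mul_conj, Complex.normSq_eq_norm_sq, hx, WB_ee_norm]
      simp
    have h5 : y = x := by
      calc y = (x * (starRingEnd ℂ) x) * y := by rw [hxx, one_mul]
        _ = x * ((starRingEnd ℂ) x * y) := by ring
        _ = x := by rw [h2, mul_one]
    have h6 : ee (((j : ℝ) - i) * ((om a b : ℝ) / N)) = 1 := by
      have h7 : y = ee (((j : ℝ) - i) * ((om a b : ℝ) / N)) * x := by
        rw [hx, hy, ← WB_ee_add]
        congr 1
        ring
      have hx0 : x ≠ 0 := by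
        intro h0
        rw [h0] at hxx
        simp at hxx
      have h8 : ee (((j : ℝ) - i) * ((om a b : ℝ) / N)) * x = 1 * x := by
        rw [← h7, h5, one_mul]
      exact mul_right_cancel₀ hx0 h8
    obtain ⟨n, hn⟩ := WB_ee_eq_one h6
    have h9 : (((j : ℤ) - i) * om a b : ℤ) = n * N := by
      have : ((j : ℝ) - i) * (om a b : ℝ) = n * N := by
        rw [← hn]; field_simp
      exact_mod_cast this
    have h10 : |(((j : ℤ) - i) * om a b : ℤ)| < N := by
      rw [abs_mul]
      have h11 : |(j : ℤ) - i| < S := by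
        rw [abs_lt]
        constructor <;> omega
      have h12 : 0 < |om a b| := abs_pos.2 hab
      calc |(j : ℤ) - i| * |om a b| < S * |om a b| := mul_lt_mul_of_pos_right h11 h12
        _ ≤ N := hS
    rw [h9, abs_mul] at h10
    have h13 : n = 0 := by
      by_contra hn0
      have h14 : 1 ≤ |n| := Int.one_le_abs hn0
      have h15 : |(N : ℤ)| = N := abs_of_nonneg (by positivity)
      rw [h15] at h10
      have h16 : (0 : ℤ) ≤ N := by positivity
      nlinarith
    rw [h13, zero_mul] at h9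
    rcases mul_eq_zero.1 h9 with h14 | h14
    · exact hij (by omega)
    · exact hab h14
  -- Bessel
  set e : Fin S → H := fun j => ((‖u‖⁻¹ : ℝ) : ℂ) • U j with he
  have hon : Orthonormal ℂ e := by
    constructor
    · intro j
      show ‖((‖u‖⁻¹ : ℝ) : ℂ) • U j‖ = 1
      rw [norm_smul, hUn, Complex.norm_real, norm_inv, norm_norm, inv_mul_cancel₀ hupos.ne']
    · intro i j hij
      show inner ℂ (((‖u‖⁻¹ : ℝ) : ℂ) • U i) (((‖u‖⁻¹ : ℝ) : ℂ) • U j) = 0
      rw [inner_smul_left, inner_smul_right, horth i j i.2 j.2 (fun h => hij (Fin.ext h)), mul_zero,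
        mul_zero]
  have hb := hon.sum_inner_products_le (x := v) (s := Finset.univ)
  have hval : ∀ j : Fin S, ‖(inner ℂ (e j) v : ℂ)‖ ^ 2 = ‖u‖⁻¹ ^ 2 * ‖(inner ℂ u v : ℂ)‖ ^ 2 := by
    intro j
    show ‖(inner ℂ (((‖u‖⁻¹ : ℝ) : ℂ) • U j) v : ℂ)‖ ^ 2 = _
    rw [inner_smul_left, hUv, norm_mul, RCLike.norm_conj, Complex.norm_real, norm_inv, norm_norm,
      mul_pow]
  rw [Finset.sum_congr rfl fun j _ => hval j, Finset.sum_const, Finset.card_univ, Fintype.card_fin,
    nsmul_eq_mul] at hb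
  have h17 : ‖u‖ ^ 2 * ((S : ℝ) * (‖u‖⁻¹ ^ 2 * ‖(inner ℂ u v : ℂ)‖ ^ 2)) =
      (S : ℝ) * ‖(inner ℂ u v : ℂ)‖ ^ 2 := by
    field_simp
  rw [← h17]
  exact mul_le_mul_of_nonneg_left hb (by positivity)

end WB

end

end Pool.Agent.helper86.CM
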