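import Pool.Agent.helper86.CM.Defs2

/-! # Quantum cat maps: WBa (basic facts on Weyl systems) -/

set_option linter.unusedSectionVars false

open scoped BigOperators

namespace Pool.Agent.helper86.CM

noncomputable section

variable {L : Type} [AddCommGroup L] [Module.Free ℤ L] [Module.Finite ℤ L]

theorem WB_ee_add (x y : ℝ) : ee (x + y) = ee x * ee y := by
  unfold ee
  rw [← Complex.exp_add]
  congr 1
  push_cast
  ring

theorem WB_ee_int (n : ℤ) : ee (n : ℝ) = 1 := by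
  unfold ee
  rw [Complex.exp_eq_one_iff]
  exact ⟨n, by push_cast; ring⟩

theorem WB_ee_zero : ee 0 = 1 := by
  have := WB_ee_int 0
  simpa using this

theorem WB_ee_norm (x : ℝ) : ‖ee x‖ = 1 := by
  unfold ee
  rw [Complex.norm_exp]
  simp

theorem WB_ee_eq_one {x : ℝ} (h : ee x = 1) : ∃ n : ℤ, x = n := by
  unfold ee at h
  rw [Complex.exp_eq_one_iff] at h
  obtain ⟨n, hn⟩ := h
  refine ⟨n, ?_⟩
  have h2 : (2 * Real.pi * Complex.I : ℂ) ≠ 0 := Complex.two_pi_I_ne_zero
  have h3 : (2 * Real.pi * Complex.I : ℂ) * (x : ℂ) = (2 * Real.pi * Complex.I : ℂ) * (n : ℂ) := by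
    rw [hn]; ring
  have h4 := mul_left_cancel₀ h2 h3
  exact_mod_cast h4

section WB

variable {om : L →ₗ[ℤ] L →ₗ[ℤ] ℤ} {H : Type} [NormedAddCommGroup H] [InnerProductSpace ℂ H]
  {N : ℕ}

theorem WB_skew (W : Weyl om H N) (a b : L) : om b a = - om a b := by
  have h := W.alt (a + b)
  simp only [map_add, LinearMap.add_apply, W.alt a, W.alt b] at h
  linarith

theorem WB_comm (W : Weyl om H N) (hN : 1 ≤ N) (a b : L) (v : H) :
    W.T a (W.T b v) = ee ((om a b : ℝ) / N) • W.T b (W.T a v) := by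
  have hN' : (N : ℝ) ≠ 0 := by
    have : 0 < N := hN
    exact_mod_cast this.ne'
  rw [W.mul, W.mul, smul_smul, ← WB_ee_add, add_comm b a, WB_skew W a b]
  congr 2
  push_cast
  field_simp
  ring

theorem WB_inner (W : Weyl om H N) (a : L) (v w : H) :
    inner ℂ (W.T a v) (W.T a w) = inner ℂ v w :=
  LinearIsometry.inner_map_map (⟨W.T a, W.norm a⟩ : H →ₗᵢ[ℂ] H) v w

theorem WB_neg (W : Weyl om H N) (a : L) (v : H) : W.T (-a) (W.T a v) = v := by
  rw [W.mul, map_neg, LinearMap.neg_apply, W.alt a, neg_add_cancel, W.zero]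
  simp [WB_ee_zero]

theorem WB_adj (W : Weyl om H N) (a : L) (v w : H) :
    inner ℂ (W.T a v) w = inner ℂ v (W.T (-a) w) := by
  rw [← WB_inner W (-a) (W.T a v) w, WB_neg]

/-- no phase when the form vanishes -/
theorem WB_add (W : Weyl om H N) (a b : L) (h : om a b = 0) (v : H) :
    W.T (a + b) v = W.T a (W.T b v) := by
  rw [W.mul, h]
  simp [WB_ee_zero]

theorem WB_add_per (W : Weyl om H N) (hN : 1 ≤ N) (a b : L) (v : H) :
    W.T (a + (2 * N) • b) v = W.T a v := by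
  have h1 := W.mul a ((2 * N) • b) v
  rw [W.per] at h1
  rw [h1]
  have hN' : (N : ℝ) ≠ 0 := by
    have : 0 < N := hN
    exact_mod_cast this.ne'
  have h2 : ((om a ((2 * N) • b) : ℤ) : ℝ) / (2 * N) = ((om a b : ℤ) : ℝ) := by
    rw [map_nsmul]
    simp only [nsmul_eq_mul]
    push_cast
    field_simp
  rw [h2, WB_ee_int, one_smul]

theorem WB_mono (W : Weyl om H N) {Λ Λ' : Submodule ℤ L} {a b : ℕ} (h : Λ ≤ Λ') (hab : a ∣ b) :
    KK W Λ' a ≤ KK W Λ b := by
  obtain ⟨c, rfl⟩ := hab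
  intro v hv z hz
  rw [mul_smul]
  exact hv (c • z) (h (Submodule.smul_of_tower_mem _ c hz))

end WB

end

end Pool.Agent.helper86.CM
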