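import Pool.Agent.helper58.CM.WBa

/-! # Quantum cat maps: WBb (projections on the fixed spaces) -/

set_option linter.unusedSectionVars false

open scoped BigOperators

namespace Pool.Agent.helper86.CM

noncomputable section

variable {L : Type} [AddCommGroup L] [Module.Free ℤ L] [Module.Finite ℤ L]

theorem WB_gen {H : Type} [NormedAddCommGroup H] [InnerProductSpace ℂ H] [FiniteDimensional ℂ H]
    (K K' : Submodule ℂ H) (U U' : H → H) (hsub : ∀ v w, U (v - w) = U v - U w)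
    (hinner : ∀ v w, inner ℂ (U v) w = inner ℂ v (U' w))
    (h1 : ∀ v ∈ K, U v ∈ K') (h2 : ∀ w ∈ K', U' w ∈ K) (v : H) :
    U (K.starProjection v) = K'.starProjection (U v) := by
  symm
  refine Submodule.eq_starProjection_of_mem_of_inner_eq_zero (h1 _ (Submodule.starProjection_apply_mem K v)) ?_
  intro w hw
  rw [← hsub, hinner]
  exact Submodule.starProjection_inner_eq_zero v _ (h2 w hw)

section WB

variable {om : L →ₗ[ℤ] L →ₗ[ℤ] ℤ} {H : Type} [NormedAddCommGroup H] [InnerProductSpace ℂ H]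
  {N : ℕ}

theorem WB_T_mem (W : Weyl om H N) (Λ : Submodule ℤ L) (a : ℕ) (n : L)
    (h : ∀ z ∈ Λ, om z n = 0) (v : H) (hv : v ∈ KK W Λ a) : W.T n v ∈ KK W Λ a := by
  intro z hz
  have h1 : om (a • z) n = 0 := by
    rw [map_nsmul, LinearMap.smul_apply, h z hz, smul_zero]
  have h2 : om n (a • z) = 0 := by
    rw [WB_skew W (a • z) n, h1, neg_zero]
  rw [← WB_add W (a • z) n h1, add_comm, WB_add W n (a • z) h2, hv z hz]

/-- if `T n` commutes with the `T (a z)`, it commutes with the projection -/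
theorem WB_T_proj [FiniteDimensional ℂ H] (W : Weyl om H N) (Λ : Submodule ℤ L) (a : ℕ) (n : L)
    (h : ∀ z ∈ Λ, om z n = 0) (v : H) :
    W.T n ((KK W Λ a).starProjection v) = (KK W Λ a).starProjection (W.T n v) :=
  WB_gen _ _ (W.T n) (W.T (-n)) (fun v w => map_sub _ v w) (WB_adj W n) (WB_T_mem W Λ a n h)
    (WB_T_mem W Λ a (-n) (fun z hz => by rw [map_neg, h z hz, neg_zero])) v

/-- the projections commute when the sum is isotropic -/
theorem WB_proj_proj [FiniteDimensional ℂ H] (W : Weyl om H N) (Λ Λ' : Submodule ℤ L) (a b : ℕ)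
    (h : Iso om (Λ ⊔ Λ')) (v : H) :
    (KK W Λ a).starProjection ((KK W Λ' b).starProjection v) =
      (KK W Λ' b).starProjection ((KK W Λ a).starProjection v) := by
  have hmem : ∀ w ∈ KK W Λ' b, (KK W Λ a).starProjection w ∈ KK W Λ' b := by
    intro w hw z hz
    rw [WB_T_proj W Λ a (b • z) (fun y hy => h y (Submodule.mem_sup_left hy) _
      (Submodule.smul_of_tower_mem _ b (Submodule.mem_sup_right hz))), hw z hz]
  exact WB_gen (KK W Λ' b) (KK W Λ' b) (KK W Λ a).starProjection (KK W Λ a).starProjection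
    (fun v w => map_sub _ v w) (fun v w => Submodule.inner_starProjection_left_eq_right _ v w)
    hmem hmem v

/-- multiples fixing a vector -/
def WB_fix (W : Weyl om H N) (w : L) (x : H) : AddSubgroup ℤ where
  carrier := {a | W.T (a • w) x = x}
  zero_mem' := by
    show W.T ((0 : ℤ) • w) x = x
    rw [zero_smul, W.zero]
  add_mem' := by
    intro a b ha hb
    show W.T ((a + b) • w) x = x
    rw [add_smul, WB_add W (a • w) (b • w) (by simp [W.alt w])]
    have ha' : W.T (a • w) x = x := ha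
    have hb' : W.T (b • w) x = x := hb
    rw [hb', ha']
  neg_mem' := by
    intro a ha
    show W.T ((-a) • w) x = x
    have ha' : W.T (a • w) x = x := ha
    have h1 := WB_neg W (a • w) x
    rw [ha'] at h1
    rw [neg_smul]
    exact h1

/-- the join: `D` times the saturation is in the sum, `p^v` is the exact power of `p` in `D` -/
theorem WB_join (p : ℕ) [Fact p.Prime] {k : ℕ} (W : Weyl om H (p ^ k)) (Λ Λ' : Submodule ℤ L)
    (h : Iso om (Λ ⊔ Λ')) (D v : ℕ) (hD : ∀ z ∈ satur (Λ ⊔ Λ'), D • z ∈ Λ ⊔ Λ')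
    (hv : ∃ D', D = p ^ v * D' ∧ D'.Coprime p) (C C' E : ℕ) (hC : C ≤ E) (hC' : C' ≤ E) (x : H)
    (hx : x ∈ KK W Λ (2 * p ^ C)) (hx' : x ∈ KK W Λ' (2 * p ^ C')) :
    x ∈ KK W (satur (Λ ⊔ Λ')) (2 * p ^ (E + v)) := by
  intro z hz
  obtain ⟨D', hD1, hD2⟩ := hv
  have hxE : x ∈ KK W Λ (2 * p ^ E) :=
    WB_mono W le_rfl (Nat.mul_dvd_mul_left 2 (pow_dvd_pow p hC)) hx
  have hxE' : x ∈ KK W Λ' (2 * p ^ E) :=
    WB_mono W le_rfl (Nat.mul_dvd_mul_left 2 (pow_dvd_pow p hC')) hx'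
  obtain ⟨y, hy, y', hy', hyy⟩ := Submodule.mem_sup.1 (hD z hz)
  have hfix : W.T ((2 * p ^ E) • (D • z)) x = x := by
    rw [← hyy, smul_add, WB_add W ((2 * p ^ E) • y) ((2 * p ^ E) • y')
      (h _ (Submodule.smul_of_tower_mem _ _ (Submodule.mem_sup_left hy)) _
        (Submodule.smul_of_tower_mem _ _ (Submodule.mem_sup_right hy'))), hxE' y' hy', hxE y hy]
  set w := (2 * p ^ (E + v)) • z with hw
  have m1 : (D' : ℤ) ∈ WB_fix W w x := by
    show W.T ((D' : ℤ) • w) x = x
    have e : (D' : ℤ) • w = (2 * p ^ E) • (D • z) := by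
      rw [hw, natCast_zsmul, smul_smul, smul_smul, hD1]
      congr 1
      rw [pow_add]; ring
    rw [e, hfix]
  have m2 : ((p ^ k : ℕ) : ℤ) ∈ WB_fix W w x := by
    show W.T (((p ^ k : ℕ) : ℤ) • w) x = x
    have e : ((p ^ k : ℕ) : ℤ) • w = (2 * p ^ k) • (p ^ (E + v) • z) := by
      rw [hw, natCast_zsmul, smul_smul, smul_smul]
      congr 1
      ring
    rw [e, W.per]
  have hcop : IsCoprime (D' : ℤ) ((p ^ k : ℕ) : ℤ) := by
    rw [Nat.isCoprime_iff_coprime]
    exact Nat.Coprime.pow_right k hD2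
  obtain ⟨a, b, hab⟩ := hcop
  have m3 : (1 : ℤ) ∈ WB_fix W w x := by
    rw [← hab]
    have q1 := (WB_fix W w x).zsmul_mem m1 a
    have q2 := (WB_fix W w x).zsmul_mem m2 b
    rw [smul_eq_mul] at q1 q2
    exact (WB_fix W w x).add_mem q1 q2
  have m4 : W.T ((1 : ℤ) • w) x = x := m3
  rwa [one_smul] at m4

/-- a unitary map with `T(z) U = U T(A z)` maps `K_{A Λ}` onto `K_Λ` -/
theorem WB_equiv [FiniteDimensional ℂ H] (W : Weyl om H N) (A : L ≃ₗ[ℤ] L) (U : H ≃ₗᵢ[ℂ] H)
    (hU : ∀ m v, W.T m (U v) = U (W.T (A m) v)) (Λ : Submodule ℤ L) (a : ℕ) (v : H) :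
    (KK W Λ a).starProjection (U v) =
      U ((KK W (Λ.map (A : L →ₗ[ℤ] L)) a).starProjection v) := by
  symm
  refine WB_gen _ _ U U.symm (fun v w => map_sub _ v w) (fun v w => ?_) ?_ ?_ v
  · rw [← LinearIsometryEquiv.inner_map_map U v (U.symm w), LinearIsometryEquiv.apply_symm_apply]
  · intro v hv z hz
    rw [hU, map_nsmul, hv (A z) (Submodule.mem_map_of_mem hz)]
  · rintro w hw z' ⟨z, hz, rfl⟩
    have h1 := hU (a • z) (U.symm w)
    rw [LinearIsometryEquiv.apply_symm_apply, hw z hz, map_nsmul] at h1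
    have h2 := congrArg U.symm h1
    rw [LinearIsometryEquiv.symm_apply_apply] at h2
    exact h2.symm

end WB

end

end Pool.Agent.helper86.CM
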